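import Pool.Agent.Helper7.KT.St

/-!
# Project KT (MP_5176ab_co): module KMY

Few triangles of rich pairs meet the covered vertices.
-/

set_option autoImplicit false

namespace Pool.Agent.Helper80.KT

open Finset SimpleGraph Filter Topology
open EX Pool.Agent.Helper7.KT

open scoped Classical

noncomputable section

/-- The cliques which meet a union. -/
theorem km_union_le {V : Type} [Fintype V] (Γ : SimpleGraph V) (j : ℕ) (Y : Finset V)
    {α β : Type} (C : Finset α) (X : Finset β) (f : α → Finset V) (g : β → Finset V)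
    (h : ∀ v ∈ Y, (∃ c ∈ C, v ∈ f c) ∨ ∃ u ∈ X, v ∈ g u) :
    km Γ j Y ≤ ∑ c ∈ C, km Γ j (f c) + ∑ u ∈ X, km Γ j (g u) := by
  have h1 : ((powersetCard j univ).filter fun T : Finset V =>
      Γ.IsClique (T : Set V) ∧ ∃ v ∈ T, v ∈ Y) ⊆
      (C.biUnion fun c => (powersetCard j univ).filter fun T : Finset V =>
        Γ.IsClique (T : Set V) ∧ ∃ v ∈ T, v ∈ f c) ∪
      (X.biUnion fun u => (powersetCard j univ).filter fun T : Finset V =>
        Γ.IsClique (T : Set V) ∧ ∃ v ∈ T, v ∈ g u) := by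
    intro T hT
    rw [mem_filter] at hT
    obtain ⟨hT1, hT2, v, hv, hvY⟩ := hT
    rw [mem_union]
    rcases h v hvY with ⟨c, hc, hvc⟩ | ⟨u, hu, hvu⟩
    · left
      rw [mem_biUnion]
      exact ⟨c, hc, mem_filter.mpr ⟨hT1, hT2, v, hv, hvc⟩⟩
    · right
      rw [mem_biUnion]
      exact ⟨u, hu, mem_filter.mpr ⟨hT1, hT2, v, hv, hvu⟩⟩
  unfold km
  refine (card_le_card h1).trans ((card_union_le _ _).trans ?_)
  exact Nat.add_le_add card_biUnion_le card_biUnion_le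

/-- The vertices served with `u`. -/
def Sv {V : Type} [Fintype V] (H : Finset (Finset V)) (P : V → V → Prop) (u : V) : Finset V :=
  univ.filter fun v => ∃ g, P g v ∧ T3 H u v g

theorem mem_Sv {V : Type} [Fintype V] (H : Finset (Finset V)) (P : V → V → Prop) (u v : V) :
    v ∈ Sv H P u ↔ ∃ g, P g v ∧ T3 H u v g := by
  unfold Sv
  simp only [mem_filter, mem_univ, true_and]

theorem mem_Yy {V : Type} [Fintype V] (Γ : SimpleGraph V) (H : Finset (Finset V)) (C : Finset V)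
    (P : V → V → Prop) (X : Finset V) (v : V) (h : v ∈ Yy Γ H C P X) :
    (∃ c ∈ C, Γ.Adj c v) ∨ ∃ u ∈ X, ∃ g, P g v ∧ T3 H u v g := by
  unfold Yy at h
  simpa only [mem_filter, mem_univ, true_and] using h

theorem mem_nb {V : Type} [Fintype V] (Γ : SimpleGraph V) (c v : V) (h : Γ.Adj c v) :
    v ∈ nb Γ univ c := by
  unfold nb
  simpa only [mem_filter, mem_univ, true_and] using h

theorem xub_Sv {U : Type} [Fintype U] (G : SimpleGraph U) (D D' : ℕ)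
    (h : ∀ (V : Type) [Fintype V] (H : Finset (Finset V)), Fr 2 G H →
      ∀ P : V → V → Prop, Bd D P → ∀ u : V,
        ∑ v ∈ univ.filter (fun v => ∃ g, P g v ∧ T3 H u v g),
          (dg (Γr 2 G H) univ v - 1).choose 2 ≤ D' * (Fintype.card V).choose 2)
    (V : Type) [Fintype V] (H : Finset (Finset V)) (hF : Fr 2 G H)
    (P : V → V → Prop) (hP : Bd D P) (u : V) :
    ∑ v ∈ Sv H P u, (dg (Γr 2 G H) univ v - 1).choose 2 ≤ D' * (Fintype.card V).choose 2 :=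
  h V H hF P hP u

theorem hKMY (hKFG : StKFG) (hRGF : StRGF) (hNBC : StNBC) (hKME : StKME) (hXUB : StXUB) :
    StKMY := by
  intro U _ G t hB ht M D M' ε hε
  obtain ⟨D', hD'⟩ := hXUB U G t hB D
  have hpos : (0 : ℝ) < (M : ℝ) + M' + 1 := by positivity
  have hε1 : 0 < ε / ((M : ℝ) + M' + 1) := div_pos hε hpos
  filter_upwards [hKME 3 t (max (t - 1) D') le_rfl ht _ hε1] with n hn
  intro H hF C hC P hP X hX
  have hK : KF (Γr 2 G H) 3 t univ :=
    hKFG U G 3 t hB (Fin n) (Γr 2 G H) (hRGF 2 (by norm_num) U G (Fin n) H hF) univ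
  have hch : Nat.choose 3 2 = 3 := by decide
  have h1 : ∀ c : Fin n, (km (Γr 2 G H) 3 (nb (Γr 2 G H) univ c) : ℝ) ≤
      ε / ((M : ℝ) + M' + 1) * (n : ℝ) ^ 2 := by
    intro c
    refine hn (Γr 2 G H) (by rw [hch]; exact hK) _ ?_
    have h2 := hNBC (Fin n) (Γr 2 G H) 3 t c (by norm_num) hK
    rw [Fintype.card_fin] at h2
    rw [hch]
    exact h2.trans (Nat.mul_le_mul_right _ (le_max_left _ _))
  have h2 : ∀ u : Fin n, (km (Γr 2 G H) 3 (Sv H P u) : ℝ) ≤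
      ε / ((M : ℝ) + M' + 1) * (n : ℝ) ^ 2 := by
    intro u
    refine hn (Γr 2 G H) (by rw [hch]; exact hK) _ ?_
    have h3 := xub_Sv G D D' hD' (Fin n) H hF P hP u
    rw [Fintype.card_fin] at h3
    rw [hch]
    exact h3.trans (Nat.mul_le_mul_right _ (le_max_right (t - 1) D'))
  have h3 : km (Γr 2 G H) 3 (Yy (Γr 2 G H) H C P X) ≤
      ∑ c ∈ C, km (Γr 2 G H) 3 (nb (Γr 2 G H) univ c) +
      ∑ u ∈ X, km (Γr 2 G H) 3 (Sv H P u) := by
    refine km_union_le (Γr 2 G H) 3 _ C X (fun c => nb (Γr 2 G H) univ c)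
      (fun u => Sv H P u) ?_
    intro v hv
    rcases mem_Yy _ _ _ _ _ v hv with ⟨c, hc, hcv⟩ | ⟨u, hu, hg⟩
    · left
      exact ⟨c, hc, mem_nb _ c v hcv⟩
    · right
      exact ⟨u, hu, (mem_Sv H P u v).mpr hg⟩
  have h4 : (km (Γr 2 G H) 3 (Yy (Γr 2 G H) H C P X) : ℝ) ≤
      ∑ c ∈ C, (km (Γr 2 G H) 3 (nb (Γr 2 G H) univ c) : ℝ) +
      ∑ u ∈ X, (km (Γr 2 G H) 3 (Sv H P u) : ℝ) := by
    exact_mod_cast h3
  have h5 : ∑ c ∈ C, (km (Γr 2 G H) 3 (nb (Γr 2 G H) univ c) : ℝ) ≤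
      C.card • (ε / ((M : ℝ) + M' + 1) * (n : ℝ) ^ 2) := sum_le_card_nsmul _ _ _ fun c _ => h1 c
  have h6 : ∑ u ∈ X, (km (Γr 2 G H) 3 (Sv H P u) : ℝ) ≤
      X.card • (ε / ((M : ℝ) + M' + 1) * (n : ℝ) ^ 2) := sum_le_card_nsmul _ _ _ fun u _ => h2 u
  rw [nsmul_eq_mul] at h5 h6
  have hq : 0 ≤ ε / ((M : ℝ) + M' + 1) * (n : ℝ) ^ 2 := by positivity
  have h7 : (C.card : ℝ) * (ε / ((M : ℝ) + M' + 1) * (n : ℝ) ^ 2) ≤
      (M : ℝ) * (ε / ((M : ℝ) + M' + 1) * (n : ℝ) ^ 2) :=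
    mul_le_mul_of_nonneg_right (by exact_mod_cast hC) hq
  have h8 : (X.card : ℝ) * (ε / ((M : ℝ) + M' + 1) * (n : ℝ) ^ 2) ≤
      (M' : ℝ) * (ε / ((M : ℝ) + M' + 1) * (n : ℝ) ^ 2) :=
    mul_le_mul_of_nonneg_right (by exact_mod_cast hX) hq
  have h9 : ((M : ℝ) + M' + 1) * (ε / ((M : ℝ) + M' + 1) * (n : ℝ) ^ 2) = ε * (n : ℝ) ^ 2 := by
    field_simp
  linarith

end

end Pool.Agent.Helper80.KT
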